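import Mathlib
import Pool.Agent.Q168.EJ.Four

set_option autoImplicit false

namespace Pool.Agent.Results.MP_b101b2_co.EvenJohnsonMates

open Finset Matrix Pool.Agent.Q168.EJ

/-- The generalized Johnson graph `J_S(n,k)`: the vertices are the `k`-element subsets of an
`n`-element set, two distinct subsets `A`, `B` being adjacent iff `|A ∩ B| ∈ S`. -/
def genJohnson (n k : ℕ) (S : Set ℕ) : SimpleGraph {A : Finset (Fin n) // A.card = k} where
  Adj A B := A ≠ B ∧ (A.1 ∩ B.1).card ∈ S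
  symm := ⟨fun A B h => ⟨h.1.symm, by rw [inter_comm]; exact h.2⟩⟩
  loopless := ⟨fun _ h => h.1 rfl⟩

/-- `E_k`: the even numbers `s` with `2 ≤ s ≤ k - 1`. -/
def evens (k : ℕ) : Set ℕ := {s | 2 ≤ s ∧ s + 1 ≤ k ∧ Even s}

open Classical in
/-- The spectrum of a finite graph: the multiset of the eigenvalues of its adjacency matrix
(the roots of its characteristic polynomial, with multiplicity). -/
noncomputable def spectrum {V : Type} [Fintype V] (G : SimpleGraph V) : Multiset ℝ :=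
  (G.adjMatrix ℝ).charpoly.roots

/-- `G` has a cospectral mate: a finite graph with the same spectrum which is not isomorphic
to `G` (i.e. `G` is not determined by its spectrum). -/
def HasCospectralMate {V : Type} [Fintype V] (G : SimpleGraph V) : Prop :=
  ∃ (W : Type) (_ : Fintype W) (H : SimpleGraph W), spectrum H = spectrum G ∧ IsEmpty (G ≃g H)

theorem genJohnson_eq (k : ℕ) : genJohnson (2 * k) k (evens k) = Gr (H k) := by
  ext X Y
  show (X ≠ Y ∧ (X.1 ∩ Y.1).card ∈ evens k) ↔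
    (X ≠ Y ∧ Y ≠ cpl X ∧ X ≠ cpl Y ∧ H k X Y = 1 ∧ H k Y X = 1)
  have hle : (X.1 ∩ Y.1).card ≤ k := (card_le_card inter_subset_left).trans X.2.le
  constructor
  · rintro ⟨h1, h2, h3, h4⟩
    have h5 : H k X Y = 1 := by rw [H_eq, h4.neg_one_pow]
    have h6 : Y ≠ cpl X := by
      intro h
      have : X.1 ∩ Y.1 = ∅ := by
        rw [h]; ext x; simp [cpl]
      rw [this] at h2
      simp at h2
    exact ⟨h1, h6, fun h => h6 ((eq_cpl_comm _ _).2 h), h5, by rw [H_symm]; exact h5⟩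
  · rintro ⟨h1, h2, h3, h4, -⟩
    have heven : Even (X.1 ∩ Y.1).card := by
      rw [H_eq] at h4
      by_contra hcon
      rw [Nat.not_even_iff_odd] at hcon
      rw [hcon.neg_one_pow] at h4
      norm_num at h4
    refine ⟨h1, ?_, ?_, heven⟩
    · by_contra hcon
      have h0 : (X.1 ∩ Y.1).card = 0 := by
        obtain ⟨r, hr⟩ := heven
        omega
      apply h2
      apply Subtype.ext
      rw [card_eq_zero] at h0
      have hsub : Y.1 ⊆ (cpl X).1 := by
        intro x hx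
        rw [mem_cpl]
        intro hx'
        have : x ∈ X.1 ∩ Y.1 := mem_inter.2 ⟨hx', hx⟩
        rw [h0] at this
        simp at this
      exact eq_of_subset_of_card_le hsub (by rw [(cpl X).2, Y.2])
    · by_contra hcon
      have h0 : (X.1 ∩ Y.1).card = k := by omega
      apply h1
      apply Subtype.ext
      have e1 : X.1 ∩ Y.1 = X.1 := eq_of_subset_of_card_le inter_subset_left (by rw [h0, X.2])
      have e2 : X.1 ∩ Y.1 = Y.1 := eq_of_subset_of_card_le inter_subset_right (by rw [h0, Y.2])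
      rw [← e1, e2]

/-- A configuration for every `k ≥ 5`. -/
def cfg (k : ℕ) (hk : 5 ≤ k) : Cfg k where
  al := ⟨0, by omega⟩
  be := ⟨1, by omega⟩
  ga := ⟨2, by omega⟩
  de := ⟨3, by omega⟩
  s := ⟨4, by omega⟩
  s2 := ⟨5, by omega⟩
  y := ⟨k + 2, by omega⟩
  T := Finset.Ico ⟨4, by omega⟩ ⟨k + 2, by omega⟩
  card := by rw [Fin.card_Ico]; simp only; omega
  al_T := by simp [Fin.le_def]
  be_T := by simp [Fin.le_def]
  ga_T := by simp [Fin.le_def]
  de_T := by simp [Fin.le_def]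
  s_T := by simp only [mem_Ico, Fin.le_def, Fin.lt_def]; omega
  s2_T := by simp only [mem_Ico, Fin.le_def, Fin.lt_def]; omega
  y_T := by simp [Fin.le_def]
  al_be := by simp [Fin.ext_iff]
  al_ga := by simp [Fin.ext_iff]
  al_de := by simp [Fin.ext_iff]
  be_ga := by simp [Fin.ext_iff]
  be_de := by simp [Fin.ext_iff]
  ga_de := by simp [Fin.ext_iff]
  y_al := by simp only [ne_eq, Fin.ext_iff]; omega
  y_be := by simp only [ne_eq, Fin.ext_iff]; omega
  y_ga := by simp only [ne_eq, Fin.ext_iff]; omega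
  y_de := by simp only [ne_eq, Fin.ext_iff]; omega
  s_s2 := by simp [Fin.ext_iff]

open Classical in
theorem not_iso (k : ℕ) (hk : 5 ≤ k) (Γ : Cfg k) : IsEmpty (Gr (H k) ≃g Gr Γ.B) := by
  refine ⟨fun φ => ?_⟩
  have hk0 : 0 < k := by omega
  have hA : ∀ a b, Am (H k) a b = Am Γ.B (φ a) (φ b) := by
    intro a b
    rw [← adjMatrix_eq hk0 (H_nice k), ← adjMatrix_eq hk0 Γ.B_nice, SimpleGraph.adjMatrix_apply,
      SimpleGraph.adjMatrix_apply]
    by_cases h : (Gr (H k)).Adj a b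
    · rw [if_pos h, if_pos (φ.map_adj_iff.2 h)]
    · rw [if_neg h, if_neg (fun h' => h (φ.map_adj_iff.1 h'))]
  have hA2 : ∀ a b, (Am (H k) * Am (H k)) a b = (Am Γ.B * Am Γ.B) (φ a) (φ b) := by
    intro a b
    rw [Matrix.mul_apply, Matrix.mul_apply]
    refine Eq.trans ?_ (φ.toEquiv.sum_comp (fun z => Am Γ.B (φ a) z * Am Γ.B z (φ b)))
    exact sum_congr rfl fun z _ => by rw [hA a z, hA z b]; rfl
  have hF : ∀ a b, F (Am (H k)) a b = F (Am Γ.B) (φ a) (φ b) := by
    intro a b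
    unfold F
    rw [hA, hA2]
  have hne : Γ.Xs ≠ Γ.A1 := by
    intro h
    have := Γ.w_Xs
    rw [h, Γ.w1] at this
    norm_num at this
  have hne2 : Γ.A1 ≠ cpl Γ.Xs := by
    intro h
    have := Γ.w_cpl Γ.Xs
    rw [← h, Γ.w1, Γ.w_Xs] at this
    norm_num at this
  have h1 : F (Am Γ.B) Γ.Xs Γ.A1 = (2 * c k 2 - c k 1 + c k 3) / 2 := by
    rw [F_eq Γ.B_nice _ _ hne hne2, Γ.B_sq]
  have h2 : F (Am (H k)) (φ.symm Γ.Xs) (φ.symm Γ.A1) = (2 * c k 2 - c k 1 + c k 3) / 2 := by
    rw [hF, RelIso.apply_symm_apply, RelIso.apply_symm_apply, h1]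
  set X0 := φ.symm Γ.Xs with hX0
  set Y0 := φ.symm Γ.A1 with hY0
  have hXY : X0 ≠ Y0 := fun h => hne (φ.symm.injective h)
  by_cases hc : Y0 = cpl X0
  · rw [hc, F_eq' hk0 (H_nice k), H_sq_cpl] at h2
    apply value_ne' k hk
    rw [← h2]; ring
  · rw [F_eq (H_nice k) _ _ hXY hc, H_sq] at h2
    refine value_ne k hk (X0.1 \ Y0.1).card ?_ ?_ h2.symm
    · rw [Nat.one_le_iff_ne_zero]
      intro h0
      rw [card_eq_zero, sdiff_eq_empty_iff_subset] at h0
      exact hXY (Subtype.ext (eq_of_subset_of_card_le h0 (by rw [X0.2, Y0.2])))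
    · by_contra hcon
      have h3 : (X0.1 \ Y0.1).card ≤ X0.1.card := card_le_card sdiff_subset
      have h4 : X0.1 \ Y0.1 = X0.1 := eq_of_subset_of_card_le sdiff_subset (by
        rw [X0.2] at h3 ⊢; omega)
      apply hc
      apply Subtype.ext
      have hsub : Y0.1 ⊆ (cpl X0).1 := by
        intro x hx
        rw [mem_cpl]
        intro hx'
        rw [← h4, mem_sdiff] at hx'
        exact hx'.2 hx
      exact eq_of_subset_of_card_le hsub (by rw [(cpl X0).2, Y0.2])

open Classical in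
theorem has_mate (k : ℕ) (hk : 4 ≤ k) (Γ : Cfg k) (hiso : IsEmpty (Gr (H k) ≃g Gr Γ.B)) :
    HasCospectralMate (genJohnson (2 * k) k (evens k)) := by
  rw [genJohnson_eq]
  have hk0 : 0 < k := by omega
  refine ⟨V k, inferInstance, Gr Γ.B, ?_, hiso⟩
  unfold spectrum
  rw [adjMatrix_eq hk0 Γ.B_nice, adjMatrix_eq hk0 (H_nice k)]
  have h1 : ∀ (i1 i2 : DecidableEq (V k)) (M : Matrix (V k) (V k) ℝ),
      @Matrix.charpoly ℝ _ (V k) i1 _ M = @Matrix.charpoly ℝ _ (V k) i2 _ M := by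
    intro i1 i2 M
    rw [Subsingleton.elim i1 i2]
  have h2 := congrArg Polynomial.roots Γ.charpoly_eq
  rw [h1 _ (inferInstanceAs (DecidableEq (V k))), h2,
    h1 (inferInstanceAs (DecidableEq (V k))) _]

/-- For every `k ≥ 4`, the graph `J_{2,4,...}(2k,k)` has a cospectral mate. -/
theorem result (k : ℕ) (hk : 4 ≤ k) : HasCospectralMate (genJohnson (2 * k) k (evens k)) := by
  rcases Nat.lt_or_ge 4 k with h | h
  · exact has_mate k hk (cfg k h) (not_iso k h _)
  · have : k = 4 := by omega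
    subst this
    exact has_mate 4 le_rfl cfg4 not_iso4

end Pool.Agent.Results.MP_b101b2_co.EvenJohnsonMates
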